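import Pool.Agent.Run7.h606.Final

/-!
Closed hyperbolic 3-manifolds that are tessellated by mirrored truncated tetrahedra are obtained
geometrically, by Dehn filling all the cusps, from arithmetic hyperbolic 3-manifolds (which are
tessellated by regular ideal octahedra).
-/

open Run7.h606 in
/-- Let `M = H3/Γ` be a closed hyperbolic 3-manifold and suppose that `H3` has a `Γ`-invariant
tessellation `T` by compact truncated tetrahedra which is mirror symmetric in the truncation
planes. Then there is an arithmetic manifold `N = H3/ΓN`, with `ΓN` conjugate to a finite index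
subgroup of `SO₀(3,1;ℤ)`, such that the hyperbolic structure of `M` is obtained geometrically
from the complete structure of `N` by Dehn filling all its cusps. -/
theorem Pool.Agent.Results.MP_1413bb_gt.MirroredTessellations.result
    (Γ : Subgroup Isom) (hΓ : ClosedManifoldGroup Γ)
    (T : Set (Fin 4 → V4)) (hT : IsMirroredTessellation T)
    (hinv : ∀ γ ∈ Γ, ∀ e ∈ T, (fun i => γ.lin (e i)) ∈ T) :
    ∃ ΓN : Subgroup Isom, ArithmeticManifoldGroup ΓN ∧ ObtainedGeom ΓN Γ :=
  Run7.h606.final Γ hΓ T hT hinv
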